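import Pool.Agent.Helper77.H3.Defs

/-!
# The example of type 1 in `P^3 × P^3`
-/

set_option autoImplicit false

namespace Pool.Agent.Helper36.H3

open Pool.Agent.Helper64.HK Pool.Agent.Helper77.H3
open Pool.Agent.Helper28.HN (I aff)
open Function Finset

section single

variable {k m : ℕ} {a : Fin (k + 1) → Fin (m + 1)} {S : Type*} [CommRing S]

theorem Mf_add (c c' : Ix a → S) (i : Fin (m + 1)) (U V : Fin (k + 1) → I m → S) :
    Mf (c + c') i U V = Mf c i U V + Mf c' i U V := by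
  simp only [Mf, Pi.add_apply, add_mul, sum_add_distrib]

theorem Mf_single_self (i : Fin (m + 1)) (p : Fin (k + 1) → I m) (q : {j // a j = i} → I m)
    (s : S) (U V : Fin (k + 1) → I m → S) :
    Mf (Pi.single (⟨i, p, q⟩ : Ix a) s) i U V =
      s * (∏ j, U j (p j)) * ∏ j : {j // a j = i}, V j.1 (q j) := by
  unfold Mf
  rw [Finset.sum_eq_single p, Finset.sum_eq_single q, Pi.single_eq_same]
  · intro q' _ hq
    rw [Pi.single_eq_of_ne, zero_mul, zero_mul]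
    intro h
    apply hq
    simpa using h
  · intro h
    exact absurd (mem_univ _) h
  · intro p' _ hp
    refine Finset.sum_eq_zero fun q' _ => ?_
    rw [Pi.single_eq_of_ne, zero_mul, zero_mul]
    intro h
    apply hp
    have : (p', q') = (p, q) := by simpa using h
    exact (Prod.mk.inj this).1
  · intro h
    exact absurd (mem_univ _) h

theorem Mf_single_ne {i i' : Fin (m + 1)} (hi : i' ≠ i) (p : Fin (k + 1) → I m)
    (q : {j // a j = i} → I m) (s : S) (U V : Fin (k + 1) → I m → S) :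
    Mf (Pi.single (⟨i, p, q⟩ : Ix a) s) i' U V = 0 := by
  unfold Mf
  refine Finset.sum_eq_zero fun p' _ => Finset.sum_eq_zero fun q' _ => ?_
  rw [Pi.single_eq_of_ne, zero_mul, zero_mul]
  intro h
  exact hi (congrArg Sigma.fst h)

theorem map_single {T : Type*} [CommRing T] (f : S →+* T) (e e' : Ix a) (s : S) :
    f (Pi.single (M := fun _ => S) e s e') = Pi.single (M := fun _ => T) e (f s) e' := by
  by_cases h : e' = e
  · subst h
    rw [Pi.single_eq_same, Pi.single_eq_same]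
  · rw [Pi.single_eq_of_ne h, Pi.single_eq_of_ne h, map_zero]

end single

/-- The type. -/
abbrev a1 : Fin (1 + 1) → Fin (2 + 1) := ![0, 0]

variable {S : Type*} [CommRing S]

/-- A monomial `x_i x_j y_k y_l` of the form `0`. -/
def m0 (s : S) (y y' x x' : I 2) : Ix a1 → S :=
  Pi.single ⟨0, ![y, x], fun j => ![y', x'] j.1⟩ s

/-- A monomial of the form `1`. -/
def m1 (s : S) (y x : I 2) : Ix a1 → S := Pi.single ⟨1, ![y, x], fun _ => 0⟩ s

/-- A monomial of the form `2`. -/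
def m2 (s : S) (y x : I 2) : Ix a1 → S := Pi.single ⟨2, ![y, x], fun _ => 0⟩ s

theorem a1_zero (j : Fin (1 + 1)) : a1 j = 0 := by
  fin_cases j <;> rfl

instance e1 : IsEmpty {j // a1 j = 1} := ⟨fun j => by
  have := j.2
  rw [a1_zero] at this
  exact absurd this (by decide)⟩

instance e2 : IsEmpty {j // a1 j = 2} := ⟨fun j => by
  have := j.2
  rw [a1_zero] at this
  exact absurd this (by decide)⟩

variable (s : S) (y y' x x' : I 2) (U V : Fin (1 + 1) → I 2 → S)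

theorem Mf_m0 : Mf (m0 s y y' x x') 0 U V = s * (U 0 y * U 1 x) * (V 0 y' * V 1 x') := by
  unfold m0
  rw [Mf_single_self]
  have h1 : ∏ j, U j (![y, x] j) = U 0 y * U 1 x := by
    rw [Fin.prod_univ_two]
    rfl
  have h2 : ∏ j : {j // a1 j = 0}, V j.1 (![y', x'] j.1) = V 0 y' * V 1 x' := by
    rw [Fintype.prod_equiv (Equiv.subtypeUnivEquiv a1_zero) (fun j : {j // a1 j = 0} =>
      V j.1 (![y', x'] j.1)) (fun j => V j (![y', x'] j)) (fun _ => rfl), Fin.prod_univ_two]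
    rfl
  rw [h1, h2]

theorem Mf_m0_1 : Mf (m0 s y y' x x') 1 U V = 0 := Mf_single_ne (by decide) _ _ _ _ _

theorem Mf_m0_2 : Mf (m0 s y y' x x') 2 U V = 0 := Mf_single_ne (by decide) _ _ _ _ _

theorem Mf_m1_0 : Mf (m1 s y x) 0 U V = 0 := Mf_single_ne (by decide) _ _ _ _ _

theorem Mf_m1_2 : Mf (m1 s y x) 2 U V = 0 := Mf_single_ne (by decide) _ _ _ _ _

theorem Mf_m2_0 : Mf (m2 s y x) 0 U V = 0 := Mf_single_ne (by decide) _ _ _ _ _

theorem Mf_m2_1 : Mf (m2 s y x) 1 U V = 0 := Mf_single_ne (by decide) _ _ _ _ _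

theorem Mf_m1 : Mf (m1 s y x) 1 U V = s * (U 0 y * U 1 x) := by
  unfold m1
  rw [Mf_single_self, Fin.prod_univ_two, Fintype.prod_empty, mul_one]
  rfl

theorem Mf_m2 : Mf (m2 s y x) 2 U V = s * (U 0 y * U 1 x) := by
  unfold m2
  rw [Mf_single_self, Fin.prod_univ_two, Fintype.prod_empty, mul_one]
  rfl

/-- The coefficients. -/
def c1 : Ix a1 → S :=
  m0 1 1 1 0 0 + m0 2 0 1 0 1 + m0 2 1 2 0 1 + m0 1 1 1 0 1 + m0 (-1) 0 0 1 1 + m0 (-2) 0 2 1 1 +
  m0 (-1) 2 2 1 1 + m0 1 0 0 0 2 + m0 2 0 1 0 3 + m0 1 0 0 3 3 + m0 1 0 1 3 3 + m0 1 0 2 1 3 +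
  m1 1 2 0 + m1 1 0 1 + m2 1 3 0 + m2 1 0 2

theorem map_c1 {T : Type*} [CommRing T] (f : S →+* T) (e : Ix a1) : f (c1 e) = c1 e := by
  simp only [c1, m0, m1, m2, Pi.add_apply, map_add, map_single, map_one, map_neg, map_ofNat]

theorem Mf0 : Mf (c1 : Ix a1 → S) 0 U V =
    U 0 1 * U 1 0 * (V 0 1 * V 1 0) + 2 * (U 0 0 * U 1 0) * (V 0 1 * V 1 1) +
    2 * (U 0 1 * U 1 0) * (V 0 2 * V 1 1) + U 0 1 * U 1 0 * (V 0 1 * V 1 1) -
    U 0 0 * U 1 1 * (V 0 0 * V 1 1) - 2 * (U 0 0 * U 1 1) * (V 0 2 * V 1 1) -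
    U 0 2 * U 1 1 * (V 0 2 * V 1 1) + U 0 0 * U 1 0 * (V 0 0 * V 1 2) +
    2 * (U 0 0 * U 1 0) * (V 0 1 * V 1 3) + U 0 0 * U 1 3 * (V 0 0 * V 1 3) +
    U 0 0 * U 1 3 * (V 0 1 * V 1 3) + U 0 0 * U 1 1 * (V 0 2 * V 1 3) := by
  simp only [c1, Mf_add, Mf_m0, Mf_m1_0, Mf_m2_0]
  ring

theorem Mf1 : Mf (c1 : Ix a1 → S) 1 U V = U 0 2 * U 1 0 + U 0 0 * U 1 1 := by
  simp only [c1, Mf_add, Mf_m0_1, Mf_m1, Mf_m2_1]
  ring

theorem Mf2 : Mf (c1 : Ix a1 → S) 2 U V = U 0 3 * U 1 0 + U 0 0 * U 1 2 := by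
  simp only [c1, Mf_add, Mf_m0_2, Mf_m1_2, Mf_m2]
  ring

end Pool.Agent.Helper36.H3
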