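import Pool.Agent.Helper36.H3.Ex1

/-!
# The example of type 1: the explicit forms
-/

set_option autoImplicit false

namespace Pool.Agent.Helper36.H3

open Pool.Agent.Helper64.HK Pool.Agent.Helper77.H3
open Pool.Agent.Helper28.HN (I aff)
open Function Finset

variable {S : Type*} [CommRing S]

set_option linter.unusedSectionVars false

theorem ct1_0 (u : T3 → S) : ct (k := 1) (m := 2) u 1 0 = 1 := rfl
theorem ct1_1 (u : T3 → S) : ct (k := 1) (m := 2) u 1 1 = u (0, 0) := rfl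
theorem ct1_2 (u : T3 → S) : ct (k := 1) (m := 2) u 1 2 = u (0, 1) := rfl
theorem ct1_3 (u : T3 → S) : ct (k := 1) (m := 2) u 1 3 = u (0, 2) := rfl

theorem ups (X : Fin (1 + 1) → I 2 → S) (v : I 2 → S) : update X 0 v 0 = v := update_self ..
theorem up1 (X : Fin (1 + 1) → I 2 → S) (v : I 2 → S) : update X 0 v 1 = X 1 :=
  update_of_ne (by decide) ..
theorem ups' (X : Fin (1 + 1) → I 2 → S) (v : I 2 → S) : update X 1 v 1 = v := update_self ..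
theorem up1' (X : Fin (1 + 1) → I 2 → S) (v : I 2 → S) : update X 1 v 0 = X 0 :=
  update_of_ne (by decide) ..

theorem rf00 (X : Fin (1 + 1) → I 2 → S) (v : I 2 → S) :
    rf c1 0 X 0 v = v 2 * X 1 0 + v 0 * X 1 1 := by
  show Mf c1 1 (update X 0 v) (update X 0 v) = _
  rw [Mf1, ups, up1]

theorem rf01 (X : Fin (1 + 1) → I 2 → S) (v : I 2 → S) :
    rf c1 0 X 1 v = v 3 * X 1 0 + v 0 * X 1 2 := by
  show Mf c1 2 (update X 0 v) (update X 0 v) = _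
  rw [Mf2, ups, up1]

theorem rf10 (X : Fin (1 + 1) → I 2 → S) (v : I 2 → S) :
    rf c1 1 X 0 v = X 0 2 * v 0 + X 0 0 * v 1 := by
  show Mf c1 1 (update X 1 v) (update X 1 v) = _
  rw [Mf1, ups', up1']

theorem rf11 (X : Fin (1 + 1) → I 2 → S) (v : I 2 → S) :
    rf c1 1 X 1 v = X 0 3 * v 0 + X 0 0 * v 2 := by
  show Mf c1 2 (update X 1 v) (update X 1 v) = _
  rw [Mf2, ups', up1']

theorem Mx_eq (u : T3 → S) : Mx c1 (ct u) = 1 := by
  ext r b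
  show rf c1 0 (ct u) r (Pi.single b.succ.succ 1) = _
  fin_cases r <;> fin_cases b
  · show rf c1 0 (ct u) 0 (Pi.single 2 1) = 1
    rw [rf00, ct1_0]
    simp
  · show rf c1 0 (ct u) 0 (Pi.single 3 1) = 0
    rw [rf00, ct1_0]
    simp
  · show rf c1 0 (ct u) 1 (Pi.single 2 1) = 0
    rw [rf01, ct1_0]
    simp
  · show rf c1 0 (ct u) 1 (Pi.single 3 1) = 1
    rw [rf01, ct1_0]
    simp

theorem Y0_eq (u : T3 → S) : Y0 c1 (ct u) = ![1, 0, -u (0, 0), -u (0, 1)] := by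
  unfold Y0
  rw [Mx_eq, Matrix.adjugate_one, Matrix.one_mulVec, Matrix.det_one]
  funext i
  fin_cases i
  · rfl
  · rfl
  · show -(rf c1 0 (ct u) 0 (Pi.single 0 1)) = -u (0, 0)
    rw [rf00, ct1_1]
    simp
  · show -(rf c1 0 (ct u) 1 (Pi.single 0 1)) = -u (0, 1)
    rw [rf01, ct1_2]
    simp

theorem Y1_eq (u : T3 → S) : Y1 c1 (ct u) = ![0, 1, 0, 0] := by
  unfold Y1
  rw [Mx_eq, Matrix.adjugate_one, Matrix.one_mulVec, Matrix.det_one]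
  funext i
  fin_cases i
  · rfl
  · rfl
  · show -(rf c1 0 (ct u) 0 (Pi.single 1 1)) = 0
    rw [rf00]
    simp
  · show -(rf c1 0 (ct u) 1 (Pi.single 1 1)) = 0
    rw [rf01]
    simp

theorem yh_eq (u : T3 → S) (z : S) : yh c1 (ct u) z = ![1, z, -u (0, 0), -u (0, 1)] := by
  unfold yh
  rw [Y0_eq, Y1_eq]
  funext i
  fin_cases i <;> simp

theorem Xz0 (u : T3 → S) (z : S) : Xz c1 (ct u) z 0 = ![1, z, -u (0, 0), -u (0, 1)] := by
  unfold Xz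
  rw [ups, yh_eq]

theorem Xz1 (u : T3 → S) (z : S) : Xz c1 (ct u) z 1 = ct u 1 := by
  unfold Xz
  rw [up1]

theorem Nx_eq (u : T3 → S) (z : S) : Nx c1 1 (Xz c1 (ct u) z) = 1 := by
  ext r b
  show rf c1 1 (Xz c1 (ct u) z) r (Pi.single b.castSucc.succ 1) = _
  fin_cases r <;> fin_cases b
  · show rf c1 1 (Xz c1 (ct u) z) 0 (Pi.single 1 1) = 1
    rw [rf10, Xz0]
    simp
  · show rf c1 1 (Xz c1 (ct u) z) 0 (Pi.single 2 1) = 0
    rw [rf10, Xz0]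
    simp
  · show rf c1 1 (Xz c1 (ct u) z) 1 (Pi.single 1 1) = 0
    rw [rf11, Xz0]
    simp
  · show rf c1 1 (Xz c1 (ct u) z) 1 (Pi.single 2 1) = 1
    rw [rf11, Xz0]
    simp

theorem vh_eq (u : T3 → S) (z : S) : vh c1 1 (Xz c1 (ct u) z) = ![0, 0, 1] := by
  unfold vh
  rw [Nx_eq, Matrix.adjugate_one, Matrix.one_mulVec, Matrix.det_one]
  funext i
  fin_cases i
  · show -(rf c1 1 (Xz c1 (ct u) z) 0 (Pi.single 3 1)) = 0
    rw [rf10]
    simp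
  · show -(rf c1 1 (Xz c1 (ct u) z) 1 (Pi.single 3 1)) = 0
    rw [rf11]
    simp
  · rfl

theorem xh_eq (u : T3 → S) (z : S) : xh c1 1 (Xz c1 (ct u) z) = ![0, 0, 0, 1] := by
  unfold xh
  rw [vh_eq]
  funext i
  fin_cases i <;> rfl

theorem xi_eq (u : T3 → S) (z : S) : xi c1 u z = fun e => ![0, 0, 1] e.2 := by
  unfold xi
  rw [vh_eq]

/-! ## the explicit functions -/

/-- `Bh` -/
def bF (p r : S) : S := 2 * p + 2 * r - 2 * p ^ 2 + r ^ 2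

/-- `Ch` -/
def cF (p q r : S) : S :=
  2 * q - 2 * p ^ 2 + 2 * r ^ 2 - 2 * p ^ 2 * r + 4 * p ^ 3 - 2 * p ^ 4

theorem Pf0_eq (X : Fin (1 + 1) → I 2 → S) (v w : I 2 → S) : Pf c1 0 X v w =
    Mf c1 0 (update X 0 v) (update X 0 w) + Mf c1 0 (update X 0 w) (update X 0 v) := rfl

theorem Pf1_eq (X : Fin (1 + 1) → I 2 → S) (v w : I 2 → S) : Pf c1 1 X v w =
    Mf c1 0 (update X 1 v) (update X 1 w) + Mf c1 0 (update X 1 w) (update X 1 v) := rfl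

theorem Ah_eq (u : T3 → S) : Ah c1 (ct u) = 2 + 2 * u (0, 0) := by
  unfold Ah
  rw [Y1_eq, Pf0_eq, Mf0, ups, up1, ct1_0, ct1_1, ct1_2, ct1_3]
  simp
  ring

theorem Bh_eq (u : T3 → S) : Bh c1 (ct u) = bF (u (0, 0)) (u (0, 2)) := by
  unfold Bh
  rw [Y0_eq, Y1_eq, Pf0_eq, Mf0, Mf0, ups, up1, ups, up1, ct1_0, ct1_1, ct1_2, ct1_3]
  simp [bF]
  ring

theorem Ch_eq (u : T3 → S) : Ch c1 (ct u) = cF (u (0, 0)) (u (0, 1)) (u (0, 2)) := by
  unfold Ch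
  rw [Y0_eq, Pf0_eq, Mf0, ups, up1, ct1_0, ct1_1, ct1_2, ct1_3]
  simp [cF]
  ring

theorem Fh_eq (u : T3 → S) (z : S) : Fh c1 (ct u) z =
    (2 + 2 * u (0, 0)) * z ^ 2 + 2 * bF (u (0, 0)) (u (0, 2)) * z +
      cF (u (0, 0)) (u (0, 1)) (u (0, 2)) := by
  unfold Fh
  rw [yh_eq, Pf0_eq, Mf0, ups, up1, ct1_0, ct1_1, ct1_2, ct1_3]
  simp [cF, bF]
  ring

theorem psh_eq (u : T3 → S) (z : S) : psh c1 1 (ct u) z =
    2 * u (0, 2) + 2 * z - u (0, 0) ^ 2 + 2 * u (0, 2) * z := by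
  unfold psh
  rw [xh_eq, Pf1_eq, Mf0, Mf0, ups', up1', ups', up1', Xz0, ct1_0, ct1_1, ct1_2, ct1_3]
  simp
  ring

theorem kah_eq (u : T3 → S) (z : S) : kah c1 1 (ct u) z = 2 + 2 * z := by
  unfold kah
  rw [xh_eq, Pf1_eq, Mf0, ups', up1', Xz0]
  simp
  ring

end Pool.Agent.Helper36.H3
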