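import Pool.Agent.Helper36.H3.Ex1b

/-!
# The example of type 1: derivatives, the system, the Jacobian
-/

set_option autoImplicit false

namespace Pool.Agent.Helper36.H3

open Pool.Agent.Helper64.HK Pool.Agent.Helper77.H3
open Pool.Agent.Helper28.HN (I aff)
open Function Finset

variable {S : Type*} [CommRing S]

theorem cC_c1 : cC (c1 : Ix a1 → S) = c1 := funext fun e => map_c1 Polynomial.C e

theorem lnP_eq (u v : T3 → S) (e : T3) :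
    lnP u v e = Polynomial.C (u e) + Polynomial.X * Polynomial.C (v e) := rfl

theorem dBz_eq (u : T3 → S) (z : S) (v : T3 → S) : dBz c1 u z v =
    2 * v (0, 0) * z + 2 * v (0, 0) + 2 * v (0, 2) - 4 * u (0, 0) * v (0, 0) +
      2 * u (0, 2) * v (0, 2) := by
  unfold dBz
  rw [cC_c1, Ah_eq, Bh_eq]
  simp only [bF, lnP_eq]
  simp [Polynomial.derivative_pow]
  ring

/-- The derivative of `Fh`. -/
def dF (p r z vp vq vr : S) : S :=
  2 * vp * z ^ 2 + 2 * z * (2 * vp - 4 * p * vp + 2 * vr + 2 * r * vr) +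
    (2 * vq - 4 * p * vp + 12 * p ^ 2 * vp - 8 * p ^ 3 * vp + 4 * r * vr - 4 * p * vp * r -
      2 * p ^ 2 * vr)

theorem dFh_eq (u : T3 → S) (z : S) (v : T3 → S) : dFh c1 u z v =
    dF (u (0, 0)) (u (0, 2)) z (v (0, 0)) (v (0, 1)) (v (0, 2)) := by
  unfold dFh
  rw [cC_c1, Fh_eq]
  simp only [bF, cF, lnP_eq]
  simp [Polynomial.derivative_pow, dF]
  ring

theorem dps_eq (u : T3 → S) (z : S) (v : T3 → S) : dps c1 u z v =
    2 * v (0, 2) - 2 * u (0, 0) * v (0, 0) + 2 * v (0, 2) * z := by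
  unfold dps
  rw [cC_c1, psh_eq]
  simp only [lnP_eq]
  simp [Polynomial.derivative_pow]

theorem psP_eq (u : T3 → S) : psP c1 1 (ct u) =
    2 * Polynomial.C (u (0, 2)) + 2 * Polynomial.X - Polynomial.C (u (0, 0)) ^ 2 +
      2 * Polynomial.C (u (0, 2)) * Polynomial.X := by
  unfold psP
  have h1 : (fun e => Polynomial.C ((c1 : Ix a1 → S) e)) = c1 :=
    funext fun e => map_c1 Polynomial.C e
  have h2 : (fun i l => Polynomial.C (ct (k := 1) (m := 2) u i l)) =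
      ct (fun e => Polynomial.C (u e)) := by
    funext i l
    fin_cases i
    · exact map_zero _
    · fin_cases l
      · exact map_one _
      · rfl
      · rfl
      · rfl
  rw [h1, h2, psh_eq]

theorem zps_eq (u : T3 → S) (z : S) : zps c1 u z = 2 + 2 * u (0, 2) := by
  unfold zps
  rw [psP_eq]
  simp [Polynomial.derivative_pow]

/-- The explicit system. -/
def eq1 (x : Fin 8 → S) : Fin 8 → S :=
  ![(2 + 2 * x 0) * x 3 ^ 2 + 2 * bF (x 0) (x 2) * x 3 + cF (x 0) (x 1) (x 2),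
    (2 + 2 * x 0) * x 3 + bF (x 0) (x 2),
    2 * x 2 + 2 * x 3 - x 0 ^ 2 + 2 * x 2 * x 3,
    (2 + 2 * x 2) * (2 + 2 * x 2) - (2 + 2 * x 3) * (2 + 2 * x 0),
    dF (x 0) (x 2) (x 3) (x 4 - x 0) (x 5 - x 1) (x 6 - x 2),
    (2 + 2 * x 4) * x 7 ^ 2 + 2 * bF (x 4) (x 6) * x 7 + cF (x 4) (x 5) (x 6),
    (2 + 2 * x 4) * x 7 + bF (x 4) (x 6),
    dF (x 4) (x 6) (x 7) (x 4 - x 0) (x 5 - x 1) (x 6 - x 2)]

theorem Eqn3_eq (x : Fin 8 → S) : Eqn3 c1 x = eq1 x := by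
  unfold Eqn3 eq1
  rw [Fh_eq, Ah_eq, Bh_eq, psh_eq, xi_eq, dBz_eq, zps_eq, kah_eq, dFh_eq, Fh_eq, Ah_eq, Bh_eq,
    dFh_eq]
  funext i
  fin_cases i <;> simp [p0, p1, rr]

theorem Pp3_eq (x : Fin 8 → S) : Pp3 c1 x =
    (2 + 2 * x 0) * (2 + 2 * x 4) * (2 + 2 * x 3) *
      ((2 + 2 * x 3) * (2 * (x 4 - x 0) * x 3 + 2 * (x 4 - x 0) + 2 * (x 6 - x 2) -
        4 * x 0 * (x 4 - x 0) + 2 * x 2 * (x 6 - x 2)) -
      (2 + 2 * x 2) * (2 * (x 6 - x 2) - 2 * x 0 * (x 4 - x 0) + 2 * (x 6 - x 2) * x 3)) := by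
  unfold Pp3
  rw [Mx_eq, Mx_eq, Matrix.det_one, Ah_eq, Ah_eq, kah_eq, dBz_eq, xi_eq, dBz_eq, dps_eq]
  simp [p0, p1, rr]

/-- The point. -/
def xv : Fin 8 → ℚ := ![0, 0, 0, 0, 1, 0, 0, 0]

/-- The Jacobian. -/
def JM : Matrix (Fin 8) (Fin 8) ℚ :=
  !![0,2,0,0,0,0,0,0;
     2,0,2,2,0,0,0,0;
     0,0,2,2,0,0,0,0;
     -4,0,8,-4,0,0,0,0;
     -4,-2,0,4,0,2,0,0;
     0,0,0,0,0,2,-2,0;
     0,0,0,0,-2,0,2,4;
     0,-2,2,0,-4,2,-6,-4]

/-- Its inverse. -/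
def JK : Matrix (Fin 8) (Fin 8) ℚ :=
  !![0, 1/2, -1/2, 0, 0, 0, 0, 0;
     1/2, 0, 0, 0, 0, 0, 0, 0;
     0, 1/6, 0, 1/12, 0, 0, 0, 0;
     0, -1/6, 1/2, -1/12, 0, 0, 0, 0;
     -1/3, -7/18, 2/3, -1/36, -1/6, 1/3, -1/6, -1/6;
     1/2, 4/3, -2, 1/6, 1/2, 0, 0, 0;
     1/2, 4/3, -2, 1/6, 1/2, -1/2, 0, 0;
     -5/12, -31/36, 4/3, -7/72, -1/3, 5/12, 1/6, -1/12]

theorem JM_det : JM.det ≠ 0 := by
  apply Matrix.det_ne_zero_of_right_inverse (B := JK)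
  ext i j
  fin_cases i <;> fin_cases j <;>
    (simp [JM, JK, Matrix.mul_apply, Fin.sum_univ_succ]; try norm_num)

end Pool.Agent.Helper36.H3
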