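import Pool.Agent.Helper36.H3.Ex1c

/-!
# The example of type 1
-/

set_option autoImplicit false

namespace Pool.Agent.Helper36.H3

open Pool.Agent.Helper64.HK Pool.Agent.Helper77.H3
open Pool.Agent.Helper28.HN (I aff)
open Function Finset

theorem pd2 (j : Fin 8) : MvPolynomial.pderiv j (2 : MvPolynomial (Fin 8) ℚ) = 0 := by
  exact_mod_cast (MvPolynomial.pderiv (R := ℚ) j).map_natCast 2

theorem pd4 (j : Fin 8) : MvPolynomial.pderiv j (4 : MvPolynomial (Fin 8) ℚ) = 0 := by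
  exact_mod_cast (MvPolynomial.pderiv (R := ℚ) j).map_natCast 4

theorem pd8 (j : Fin 8) : MvPolynomial.pderiv j (8 : MvPolynomial (Fin 8) ℚ) = 0 := by
  exact_mod_cast (MvPolynomial.pderiv (R := ℚ) j).map_natCast 8

theorem pd12 (j : Fin 8) : MvPolynomial.pderiv j (12 : MvPolynomial (Fin 8) ℚ) = 0 := by
  exact_mod_cast (MvPolynomial.pderiv (R := ℚ) j).map_natCast 12

theorem jac_eq : (Matrix.of fun i j : Fin 8 => MvPolynomial.eval xv (MvPolynomial.pderiv j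
    (Eqn3 (fun e => MvPolynomial.C ((c1 : Ix a1 → ℚ) e)) MvPolynomial.X i :
      MvPolynomial (Fin 8) ℚ))) = JM := by
  have h1 : (fun e => MvPolynomial.C (σ := Fin 8) ((c1 : Ix a1 → ℚ) e)) = c1 :=
    funext fun e => map_c1 MvPolynomial.C e
  rw [h1, Eqn3_eq]
  ext i j
  rw [Matrix.of_apply]
  fin_cases i <;> fin_cases j <;>
    (simp [eq1, bF, cF, dF, JM, xv, MvPolynomial.pderiv_X, pd2, pd4, pd8, pd12,
      Derivation.leibniz_pow]; try norm_num)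

open Polynomial in
theorem bd_eq : Bh (cC (c1 : Ix a1 → ℚ)) (ct (lnP (p0 xv) (rr xv))) ^ 2 -
    Ah (cC c1) (ct (lnP (p0 xv) (rr xv))) * Ch (cC c1) (ct (lnP (p0 xv) (rr xv))) =
      C 8 * X ^ 2 + C (-12) * X ^ 3 + C 4 * X ^ 5 := by
  rw [cC_c1, Bh_eq, Ah_eq, Ch_eq]
  have h1 : lnP (p0 xv) (rr xv) (0, 0) = X := by
    simp [lnP_eq, p0, rr, p1, xv]
  have h2 : lnP (p0 xv) (rr xv) (0, 1) = 0 := by
    simp [lnP_eq, p0, rr, p1, xv]
  have h3 : lnP (p0 xv) (rr xv) (0, 2) = 0 := by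
    simp [lnP_eq, p0, rr, p1, xv]
  rw [h1, h2, h3]
  simp only [bF, cF, map_ofNat, map_neg]
  ring

theorem ex1 : ∃ c0 : Ix (![0, 0] : Fin (1 + 1) → Fin (2 + 1)) → ℚ, ∃ x0 : Fin 8 → ℚ,
    (∀ i, Eqn3 c0 x0 i = 0) ∧ Pp3 c0 x0 ≠ 0 ∧
    (Mx (cC c0) (ct (lnP (p0 x0) (rr x0)))).det = 1 ∧
    G3 (Bh (cC c0) (ct (lnP (p0 x0) (rr x0))) ^ 2 - Ah (cC c0) (ct (lnP (p0 x0) (rr x0))) *
      Ch (cC c0) (ct (lnP (p0 x0) (rr x0)))) ≠ 0 ∧
    (Matrix.of fun i j : Fin 8 => MvPolynomial.eval x0 (MvPolynomial.pderiv j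
      (Eqn3 (fun e => MvPolynomial.C (c0 e)) MvPolynomial.X i : MvPolynomial (Fin 8) ℚ))).det ≠ 0 := by
  refine ⟨c1, xv, ?_, ?_, ?_, ?_, ?_⟩
  · intro i
    rw [Eqn3_eq]
    fin_cases i <;> simp [eq1, bF, cF, dF, xv] <;> norm_num
  · rw [Pp3_eq]
    simp [xv]
  · rw [cC_c1, Mx_eq, Matrix.det_one]
  · rw [bd_eq]
    simp [G3, ec, Polynomial.coeff_X_pow, Polynomial.coeff_C_mul]
    norm_num
  · rw [jac_eq]
    exact JM_det

end Pool.Agent.Helper36.H3
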